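import Pool.Agent.FS77.Defs

/-!
The eigenvalues at which a matrix is not semisimple.
-/

namespace Pool.Agent.GP77

open Matrix Pool.Agent.FS77

/-- The eigenvalues `c` of `A` with `dim ker (A - c) ≠ dim ker (A - c)²`. -/
noncomputable def bad {K : Type*} [Field K] {ι : Type} [Fintype ι] [DecidableEq ι]
    (A : Matrix ι ι K) : Finset K := by
  classical
  exact A.charpoly.roots.toFinset.filter (fun c => geo A c 1 ≠ geo A c 2)

end Pool.Agent.GP77
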