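import Pool.Agent.GP77.Sym

/-!
Final form of the gap theorem.
-/

namespace Pool.Agent.GP77

open Matrix Module Pool.Agent.FS77 Pool.Agent.NL18

universe u
variable {K : Type u} [Field K] {ι : Type} [Fintype ι] [DecidableEq ι]

theorem geo_pos_of_bad (A : Matrix ι ι K) (c : K) (h : c ∈ bad A) : 1 ≤ geo A c 1 := by
  obtain ⟨x, y, hy0, hx, hy⟩ := exists_chain A c ((mem_bad A c).mp h)
  rw [geo_one, Nat.one_le_iff_ne_zero]
  intro h0
  have h5 := (Submodule.finrank_eq_zero.mp h0)
  have h6 : y ∈ ke A c := (mem_ke A _ _).mpr hy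
  rw [h5, Submodule.mem_bot] at h6
  exact hy0 h6

theorem bad_dual (A P : Matrix ι ι K) (Q : K) (hP : P.det ≠ 0) (hQ : Q ≠ 0)
    (h : Aᵀ * P * A = Q • P) (c : K) (hc : c ∈ bad A) : Q / c ∈ bad A := by
  have hA : A.det ≠ 0 := by
    have h1 := congrArg Matrix.det h
    rw [Matrix.det_mul, Matrix.det_mul, Matrix.det_smul] at h1
    intro h0
    rw [h0, mul_zero] at h1
    exact mul_ne_zero (pow_ne_zero _ hQ) hP h1.symm
  have hc0 : c ≠ 0 := by
    intro h0
    obtain ⟨x, y, hy0, hx, hy⟩ := exists_chain A c ((mem_bad A c).mp hc)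
    rw [h0, zero_smul] at hy
    apply hy0
    exact Matrix.mulVec_injective_iff_isUnit.mpr
      ((Matrix.isUnit_iff_isUnit_det A).mpr (isUnit_iff_ne_zero.mpr hA))
      (by rw [hy, Matrix.mulVec_zero])
  rw [mem_bad] at hc ⊢
  rw [geo_eq, geo_eq, num_symm A P Q hA hP h c hc0, num_symm A P Q hA hP h c hc0, ← geo_eq,
    ← geo_eq]
  exact hc

theorem sum_two (A : Matrix ι ι K) (s : Finset K) (hs : s ⊆ bad A) :
    2 * s.card ≤ ∑ c ∈ bad A, 2 * geo A c 1 ∧
    3 * s.card ≤ ∑ c ∈ bad A, (4 * geo A c 1 - 1) := by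
  constructor
  · calc 2 * s.card = ∑ _c ∈ s, 2 := by rw [Finset.sum_const, smul_eq_mul, mul_comm]
      _ ≤ ∑ c ∈ s, 2 * geo A c 1 := Finset.sum_le_sum fun c hc => by
          have := geo_pos_of_bad A c (hs hc)
          omega
      _ ≤ _ := Finset.sum_le_sum_of_subset hs
  · calc 3 * s.card = ∑ _c ∈ s, 3 := by rw [Finset.sum_const, smul_eq_mul, mul_comm]
      _ ≤ ∑ c ∈ s, (4 * geo A c 1 - 1) := Finset.sum_le_sum fun c hc => by
          have := geo_pos_of_bad A c (hs hc)
          omega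
      _ ≤ _ := Finset.sum_le_sum_of_subset hs

theorem square_final [IsAlgClosed K] [CharZero K] (A P : Matrix ι ι K) (Q : K) (hP : P.det ≠ 0)
    (hQ : Q ≠ 0) (h : Aᵀ * P * A = Q • P)
    (hs : ¬ Module.End.IsSemisimple (Matrix.toLin' A)) (F : Matrix (Fin 2 → ι) (Fin 2 → ι) K)
    (hF : (kpow A 2)ᵀ * F * kpow A 2 = Q ^ 2 • F) {r : ℕ} (z : Fin r → (Fin 2 → ι) → K)
    (hz : ∀ i, kpow A 2 *ᵥ z i = Q • z i) :
    (geo (kpow A 2) Q 1 + 2 ≤ alg (kpow A 2) Q ∧ (gram F z).rank + 3 ≤ alg (kpow A 2) Q) ∧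
    ((∀ c, c ^ 2 = Q → geo A c 1 = geo A c 2) →
      geo (kpow A 2) Q 1 + 4 ≤ alg (kpow A 2) Q ∧ (gram F z).rank + 6 ≤ alg (kpow A 2) Q) := by
  classical
  obtain ⟨h1, h2⟩ := square_gap A P Q hP hQ h F hF z hz
  obtain ⟨c, hc⟩ := bad_nonempty A hs
  constructor
  · obtain ⟨h3, h4⟩ := sum_two A {c} (by
      intro x hx
      rw [Finset.mem_singleton] at hx
      rw [hx]
      exact hc)
    rw [Finset.card_singleton] at h3 h4
    omega
  · intro hsq
    have hne : c ≠ Q / c := by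
      intro h0
      have hc0 : c ≠ 0 := by
        intro h5
        rw [h5, div_zero] at h0
        have h6 := bad_dual A P Q hP hQ h c hc
        -- zero is not a bad eigenvalue
        obtain ⟨x, y, hy0, hx, hy⟩ := exists_chain A c ((mem_bad A c).mp hc)
        have hA : A.det ≠ 0 := by
          have h1 := congrArg Matrix.det h
          rw [Matrix.det_mul, Matrix.det_mul, Matrix.det_smul] at h1
          intro h0
          rw [h0, mul_zero] at h1
          exact mul_ne_zero (pow_ne_zero _ hQ) hP h1.symm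
        rw [h5, zero_smul] at hy
        apply hy0
        exact Matrix.mulVec_injective_iff_isUnit.mpr
          ((Matrix.isUnit_iff_isUnit_det A).mpr (isUnit_iff_ne_zero.mpr hA))
          (by rw [hy, Matrix.mulVec_zero])
      have h7 : c ^ 2 = Q := by
        rw [pow_two]
        nth_rewrite 2 [h0]
        exact mul_div_cancel₀ Q hc0
      exact (mem_bad A c).mp hc (hsq c h7)
    obtain ⟨h3, h4⟩ := sum_two A {c, Q / c} (by
      intro x hx
      rw [Finset.mem_insert, Finset.mem_singleton] at hx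
      rcases hx with rfl | rfl
      · exact hc
      · exact bad_dual A P Q hP hQ h c hc)
    rw [Finset.card_pair hne] at h3 h4
    omega

end Pool.Agent.GP77
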