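import Pool.Agent.FS77.Rec
import Pool.Agent.NL18.Defs

/-!
Eigenvectors of a similitude: the Gram rank and the algebraic multiplicity.
-/

namespace Pool.Agent.GP77

open Matrix Module Pool.Agent.FS77 Pool.Agent.NL18

variable {K : Type*} [Field K]

section vec

variable {κ : Type*} [Fintype κ]

theorem radical (M F : Matrix κ κ K) (μ : K) (hμ : μ ≠ 0) (h : Mᵀ * F * M = μ ^ 2 • F)
    {w v : κ → K} (hv : M *ᵥ v = μ • v) : (M *ᵥ w - μ • w) ⬝ᵥ (F *ᵥ v) = 0 := by
  have h1 : (M *ᵥ w) ⬝ᵥ (F *ᵥ (M *ᵥ v)) = μ ^ 2 * (w ⬝ᵥ (F *ᵥ v)) := by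
    have h2 : w ⬝ᵥ ((Mᵀ * F * M) *ᵥ v) = (M *ᵥ w) ⬝ᵥ (F *ᵥ (M *ᵥ v)) := by
      rw [← Matrix.mulVec_mulVec, ← Matrix.mulVec_mulVec, Matrix.dotProduct_mulVec,
        Matrix.vecMul_transpose]
    rw [← h2, h, Matrix.smul_mulVec, dotProduct_smul, smul_eq_mul]
  rw [hv, Matrix.mulVec_smul, dotProduct_smul, smul_eq_mul, pow_two, mul_assoc] at h1
  have h3 := mul_left_cancel₀ hμ h1
  rw [sub_dotProduct, h3, smul_dotProduct, smul_eq_mul, sub_self]

/-- The functional `v ↦ (vᵀ F z_j)_j`. -/
noncomputable def phi (F : Matrix κ κ K) {r : ℕ} (z : Fin r → κ → K) :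
    (κ → K) →ₗ[K] (Fin r → K) where
  toFun v := fun j => v ⬝ᵥ (F *ᵥ z j)
  map_add' u v := by
    funext j
    simp [add_dotProduct]
  map_smul' c v := by
    funext j
    simp [smul_dotProduct]

theorem rank_gram_add (F : Matrix κ κ K) {r : ℕ} (z : Fin r → κ → K) (E R : Submodule K (κ → K))
    (hz : ∀ i, z i ∈ E) (hR : R ≤ E) (hrad : ∀ w ∈ R, ∀ j, w ⬝ᵥ (F *ᵥ z j) = 0) :
    (gram F z).rank + finrank K R ≤ finrank K E := by
  classical
  have h1 : (gram F z).rank ≤ finrank K (LinearMap.range ((phi F z).domRestrict E)) := by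
    rw [Matrix.rank_eq_finrank_span_row]
    refine Submodule.finrank_mono ?_
    rw [Submodule.span_le]
    rintro _ ⟨i, rfl⟩
    refine ⟨⟨z i, hz i⟩, ?_⟩
    funext j
    rfl
  have h2 := LinearMap.finrank_range_add_finrank_ker ((phi F z).domRestrict E)
  have h3 : finrank K R ≤ finrank K (LinearMap.ker ((phi F z).domRestrict E)) := by
    let g : R →ₗ[K] LinearMap.ker ((phi F z).domRestrict E) :=
      (Submodule.inclusion hR).codRestrict _ (by
        rintro ⟨w, hw⟩
        rw [LinearMap.mem_ker]
        funext j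
        exact hrad w hw j)
    refine LinearMap.finrank_le_finrank_of_injective (f := g) ?_
    intro a b hab
    have := congrArg (fun t => ((t : E) : κ → K)) (congrArg Subtype.val hab)
    exact Subtype.ext this
  omega

end vec

section chain

variable {V : Type*} [AddCommGroup V] [Module K V] [FiniteDimensional K V]

theorem two_span (T : Module.End K V) {σ : Type*} [Fintype σ] (u : σ → V)
    (h3 : ∀ s, T (T (T (u s))) = 0) (hli : LinearIndependent K (fun s => T (T (u s)))) :
    2 * Fintype.card σ ≤ finrank K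
      (Submodule.span K (Set.range (fun s => T (u s)) ∪ Set.range (fun s => T (T (u s))))) := by
  classical
  set S := Submodule.span K
    (Set.range (fun s => T (u s)) ∪ Set.range (fun s => T (T (u s)))) with hS
  set S1 := Submodule.span K (Set.range (fun s => T (T (u s)))) with hS1
  have hc : finrank K S1 = Fintype.card σ := finrank_span_eq_card hli
  have h1 := LinearMap.finrank_range_add_finrank_ker (T.domRestrict S)
  have h2 : finrank K S1 ≤ finrank K (LinearMap.range (T.domRestrict S)) := by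
    refine Submodule.finrank_mono ?_
    rw [hS1, Submodule.span_le]
    rintro _ ⟨s, rfl⟩
    exact ⟨⟨T (u s), Submodule.subset_span (Or.inl ⟨s, rfl⟩)⟩, rfl⟩
  have h4 : S1 ≤ S := Submodule.span_mono Set.subset_union_right
  have h5 : ∀ w ∈ S1, T w = 0 := by
    intro w hw
    have : S1 ≤ LinearMap.ker T := by
      rw [hS1, Submodule.span_le]
      rintro _ ⟨s, rfl⟩
      exact h3 s
    exact this hw
  have h6 : finrank K S1 ≤ finrank K (LinearMap.ker (T.domRestrict S)) := by
    let g : S1 →ₗ[K] LinearMap.ker (T.domRestrict S) :=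
      (Submodule.inclusion h4).codRestrict _ (by
        rintro ⟨w, hw⟩
        rw [LinearMap.mem_ker]
        exact h5 w hw)
    refine LinearMap.finrank_le_finrank_of_injective (f := g) ?_
    intro a b hab
    have := congrArg (fun t => ((t : S) : V)) (congrArg Subtype.val hab)
    exact Subtype.ext this
  omega

end chain

section main

variable {κ : Type*} [Fintype κ] [DecidableEq κ]

theorem gap_general (M F : Matrix κ κ K) (μ : K) (hμ : μ ≠ 0) (h : Mᵀ * F * M = μ ^ 2 • F)
    {r : ℕ} (z : Fin r → κ → K) (hz : ∀ i, M *ᵥ z i = μ • z i)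
    {σ : Type*} [Fintype σ] (u : σ → κ → K)
    (h3 : ∀ s, (M - μ • 1) *ᵥ ((M - μ • 1) *ᵥ ((M - μ • 1) *ᵥ u s)) = 0)
    (hli : LinearIndependent K (fun s => (M - μ • 1) *ᵥ ((M - μ • 1) *ᵥ u s))) :
    (gram F z).rank + 3 * Fintype.card σ ≤ alg M μ := by
  classical
  set f : Module.End K (κ → K) := Matrix.toLin' M with hf
  set T : Module.End K (κ → K) := f - algebraMap K (Module.End K (κ → K)) μ with hT
  have hTv : ∀ v, T v = (M - μ • 1) *ᵥ v := by
    intro v
    rw [hT, hf, LinearMap.sub_apply, Matrix.toLin'_apply, Module.algebraMap_end_apply,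
      Matrix.sub_mulVec, Matrix.smul_mulVec, Matrix.one_mulVec]
  have hTv' : ∀ v, T v = M *ᵥ v - μ • v := by
    intro v
    rw [hT, hf, LinearMap.sub_apply, Matrix.toLin'_apply, Module.algebraMap_end_apply]
  set W := f.maxGenEigenspace μ with hW
  have halg : alg M μ = finrank K W := by
    unfold alg
    rw [← Matrix.charpoly_toLin', ← LinearMap.finrank_maxGenEigenspace_eq]
  set E := LinearMap.ker T with hE
  have hEW : E ≤ W := by
    intro v hv
    rw [hW, Module.End.mem_maxGenEigenspace]
    refine ⟨1, ?_⟩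
    rw [pow_one, ← Algebra.algebraMap_eq_smul_one]
    exact hv
  have huW : ∀ s, T (u s) ∈ Submodule.map T W := by
    intro s
    refine ⟨u s, ?_, rfl⟩
    change u s ∈ W
    rw [hW, Module.End.mem_maxGenEigenspace]
    refine ⟨3, ?_⟩
    rw [← Algebra.algebraMap_eq_smul_one, ← hT, pow_succ, pow_two]
    change T (T (T (u s))) = 0
    rw [hTv, hTv, hTv]
    exact h3 s
  have huW' : ∀ s, T (T (u s)) ∈ Submodule.map T W := by
    intro s
    refine ⟨T (u s), ?_, rfl⟩
    change T (u s) ∈ W
    rw [hW, Module.End.mem_maxGenEigenspace]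
    refine ⟨2, ?_⟩
    rw [← Algebra.algebraMap_eq_smul_one, ← hT, pow_two]
    change T (T (T (u s))) = 0
    rw [hTv, hTv, hTv]
    exact h3 s
  have hli' : LinearIndependent K (fun s => T (T (u s))) := by
    have : (fun s => T (T (u s))) = (fun s => (M - μ • 1) *ᵥ ((M - μ • 1) *ᵥ u s)) := by
      funext s
      rw [hTv, hTv]
    rw [this]
    exact hli
  have h3' : ∀ s, T (T (T (u s))) = 0 := by
    intro s
    rw [hTv, hTv, hTv]
    exact h3 s
  -- dimension of the image
  have hs2 := two_span T u h3' hli'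
  have hle : Submodule.span K
      (Set.range (fun s => T (u s)) ∪ Set.range (fun s => T (T (u s)))) ≤ Submodule.map T W := by
    rw [Submodule.span_le]
    rintro _ (⟨s, rfl⟩ | ⟨s, rfl⟩)
    · exact huW s
    · exact huW' s
  have hs3 := hs2.trans (Submodule.finrank_mono hle)
  have hrn := LinearMap.finrank_range_add_finrank_ker (T.domRestrict W)
  have hrange : LinearMap.range (T.domRestrict W) = Submodule.map T W := by
    rw [LinearMap.range_domRestrict]
  have hker : finrank K E ≤ finrank K (LinearMap.ker (T.domRestrict W)) := by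
    let g : E →ₗ[K] LinearMap.ker (T.domRestrict W) :=
      (Submodule.inclusion hEW).codRestrict _ (by
        rintro ⟨w, hw⟩
        rw [LinearMap.mem_ker]
        exact hw)
    refine LinearMap.finrank_le_finrank_of_injective (f := g) ?_
    intro a b hab
    have := congrArg (fun t => ((t : W) : κ → K)) (congrArg Subtype.val hab)
    exact Subtype.ext this
  -- the radical
  set R := Submodule.span K (Set.range (fun s => T (T (u s)))) with hR
  have hRc : finrank K R = Fintype.card σ := finrank_span_eq_card hli'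
  have hRE : R ≤ E := by
    rw [hR, Submodule.span_le]
    rintro _ ⟨s, rfl⟩
    exact h3' s
  have hrad : ∀ w ∈ R, ∀ j, w ⬝ᵥ (F *ᵥ z j) = 0 := by
    intro w hw j
    have : R ≤ LinearMap.range T := by
      rw [hR, Submodule.span_le]
      rintro _ ⟨s, rfl⟩
      exact ⟨T (u s), rfl⟩
    obtain ⟨w', rfl⟩ := this hw
    rw [hTv']
    exact radical M F μ hμ h (hz j)
  have hzE : ∀ i, z i ∈ E := by
    intro i
    rw [hE, LinearMap.mem_ker, hTv', hz i, sub_self]
  have hfin := rank_gram_add F z E R hzE hRE hrad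
  rw [halg]
  rw [hrange] at hrn
  omega

end main

end Pool.Agent.GP77
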