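import Pool.Agent.GP77.Ten

/-!
The general inequality with two subspaces.
-/

namespace Pool.Agent.GP77

open Matrix Module Pool.Agent.FS77 Pool.Agent.NL18

variable {K : Type*} [Field K]

variable {κ : Type*} [Fintype κ] [DecidableEq κ]

theorem gap_two (M F : Matrix κ κ K) (μ : K) (hμ : μ ≠ 0) (h : Mᵀ * F * M = μ ^ 2 • F)
    {r : ℕ} (z : Fin r → κ → K) (hz : ∀ i, M *ᵥ z i = μ • z i)
    (R S : Submodule K (κ → K)) (hR : ∀ w ∈ R, (M - μ • 1) *ᵥ w = 0)
    (hR' : ∀ w ∈ R, ∃ w', (M - μ • 1) *ᵥ w' = w)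
    (hS : ∀ w ∈ S, ∃ w', (M - μ • 1) *ᵥ w' = w ∧ w' ∈ Module.End.maxGenEigenspace (Matrix.toLin' M) μ) :
    (gram F z).rank + finrank K R + finrank K S ≤ alg M μ := by
  classical
  set f : Module.End K (κ → K) := Matrix.toLin' M with hf
  set T : Module.End K (κ → K) := f - algebraMap K (Module.End K (κ → K)) μ with hT
  have hTv : ∀ v, T v = (M - μ • 1) *ᵥ v := by
    intro v
    rw [hT, hf, LinearMap.sub_apply, Matrix.toLin'_apply, Module.algebraMap_end_apply,
      Matrix.sub_mulVec, Matrix.smul_mulVec, Matrix.one_mulVec]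
  have hTv' : ∀ v, T v = M *ᵥ v - μ • v := by
    intro v
    rw [hT, hf, LinearMap.sub_apply, Matrix.toLin'_apply, Module.algebraMap_end_apply]
  set W := f.maxGenEigenspace μ with hW
  have halg : alg M μ = finrank K W := by
    unfold alg
    rw [← Matrix.charpoly_toLin', ← LinearMap.finrank_maxGenEigenspace_eq]
  set E := LinearMap.ker T with hE
  have hEW : E ≤ W := by
    intro v hv
    rw [hW, Module.End.mem_maxGenEigenspace]
    refine ⟨1, ?_⟩
    rw [pow_one, ← Algebra.algebraMap_eq_smul_one]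
    exact hv
  have hle : S ≤ Submodule.map T W := by
    intro w hw
    obtain ⟨w', h1, h2⟩ := hS w hw
    exact ⟨w', h2, by rw [hTv]; exact h1⟩
  have hs3 := Submodule.finrank_mono hle
  have hrn := LinearMap.finrank_range_add_finrank_ker (T.domRestrict W)
  have hrange : LinearMap.range (T.domRestrict W) = Submodule.map T W := by
    rw [LinearMap.range_domRestrict]
  have hker : finrank K E ≤ finrank K (LinearMap.ker (T.domRestrict W)) := by
    let g : E →ₗ[K] LinearMap.ker (T.domRestrict W) :=
      (Submodule.inclusion hEW).codRestrict _ (by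
        rintro ⟨w, hw⟩
        rw [LinearMap.mem_ker]
        exact hw)
    refine LinearMap.finrank_le_finrank_of_injective (f := g) ?_
    intro a b hab
    have := congrArg (fun t => ((t : W) : κ → K)) (congrArg Subtype.val hab)
    exact Subtype.ext this
  have hRE : R ≤ E := by
    intro w hw
    rw [hE, LinearMap.mem_ker, hTv]
    exact hR w hw
  have hrad : ∀ w ∈ R, ∀ j, w ⬝ᵥ (F *ᵥ z j) = 0 := by
    intro w hw j
    obtain ⟨w', rfl⟩ := hR' w hw
    rw [← hTv, hTv']
    exact radical M F μ hμ h (hz j)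
  have hzE : ∀ i, z i ∈ E := by
    intro i
    rw [hE, LinearMap.mem_ker, hTv', hz i, sub_self]
  have hfin := rank_gram_add F z E R hzE hRE hrad
  rw [halg]
  rw [hrange] at hrn
  omega

/-- The dimension of the kernel and a subspace of the image. -/
theorem gap_dim (M : Matrix κ κ K) (μ : K) (S : Submodule K (κ → K))
    (hS : ∀ w ∈ S, ∃ w', (M - μ • 1) *ᵥ w' = w ∧
      w' ∈ Module.End.maxGenEigenspace (Matrix.toLin' M) μ) :
    geo M μ 1 + finrank K S ≤ alg M μ := by
  classical
  set f : Module.End K (κ → K) := Matrix.toLin' M with hf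
  set T : Module.End K (κ → K) := f - μ • (1 : Module.End K (κ → K)) with hT
  have hTv : ∀ v, T v = (M - μ • 1) *ᵥ v := by
    intro v
    rw [hT, hf, LinearMap.sub_apply, Matrix.toLin'_apply, LinearMap.smul_apply,
      Module.End.one_apply, Matrix.sub_mulVec, Matrix.smul_mulVec, Matrix.one_mulVec]
  set W := f.maxGenEigenspace μ with hW
  have halg : alg M μ = finrank K W := by
    unfold alg
    rw [← Matrix.charpoly_toLin', ← LinearMap.finrank_maxGenEigenspace_eq]
  have hgeo : geo M μ 1 = finrank K (LinearMap.ker T) := by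
    unfold geo
    rw [Module.End.genEigenspace_nat, pow_one]
  set E := LinearMap.ker T with hE
  have hEW : E ≤ W := by
    intro v hv
    rw [hW, Module.End.mem_maxGenEigenspace]
    refine ⟨1, ?_⟩
    rw [pow_one]
    exact hv
  have hle : S ≤ Submodule.map T W := by
    intro w hw
    obtain ⟨w', h1, h2⟩ := hS w hw
    exact ⟨w', h2, by rw [hTv]; exact h1⟩
  have hs3 := Submodule.finrank_mono hle
  have hrn := LinearMap.finrank_range_add_finrank_ker (T.domRestrict W)
  have hrange : LinearMap.range (T.domRestrict W) = Submodule.map T W := by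
    rw [LinearMap.range_domRestrict]
  have hker : finrank K E ≤ finrank K (LinearMap.ker (T.domRestrict W)) := by
    let g : E →ₗ[K] LinearMap.ker (T.domRestrict W) :=
      (Submodule.inclusion hEW).codRestrict _ (by
        rintro ⟨w, hw⟩
        rw [LinearMap.mem_ker]
        exact hw)
    refine LinearMap.finrank_le_finrank_of_injective (f := g) ?_
    intro a b hab
    have := congrArg (fun t => ((t : W) : κ → K)) (congrArg Subtype.val hab)
    exact Subtype.ext this
  rw [halg, hgeo]
  rw [hrange] at hrn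
  omega

/-- Membership in the generalised eigenspace from a vanishing iterate. -/
theorem mem_W (M : Matrix κ κ K) (μ : K) (w : κ → K)
    (h : (M - μ • 1) *ᵥ ((M - μ • 1) *ᵥ ((M - μ • 1) *ᵥ w)) = 0) :
    w ∈ Module.End.maxGenEigenspace (Matrix.toLin' M) μ := by
  rw [Module.End.mem_maxGenEigenspace]
  refine ⟨3, ?_⟩
  have hTv : ∀ v, (Matrix.toLin' M - μ • (1 : Module.End K (κ → K))) v = (M - μ • 1) *ᵥ v := by
    intro v
    rw [LinearMap.sub_apply, Matrix.toLin'_apply, LinearMap.smul_apply, Module.End.one_apply,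
      Matrix.sub_mulVec, Matrix.smul_mulVec, Matrix.one_mulVec]
  rw [pow_succ, pow_two]
  change (Matrix.toLin' M - μ • (1 : Module.End K (κ → K)))
    ((Matrix.toLin' M - μ • (1 : Module.End K (κ → K)))
      ((Matrix.toLin' M - μ • (1 : Module.End K (κ → K))) w)) = 0
  rw [hTv, hTv, hTv]
  exact h

theorem gap_three (M F : Matrix κ κ K) (μ : K) (hμ : μ ≠ 0) (h : Mᵀ * F * M = μ ^ 2 • F)
    {r : ℕ} (z : Fin r → κ → K) (hz : ∀ i, M *ᵥ z i = μ • z i)
    (R : Submodule K (κ → K)) (hR : ∀ w ∈ R, (M - μ • 1) *ᵥ w = 0)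
    (hR' : ∀ w ∈ R, ∃ w', (M - μ • 1) *ᵥ w' = w)
    {σ : Type*} [Fintype σ] (u : σ → κ → K)
    (h3 : ∀ s, (M - μ • 1) *ᵥ ((M - μ • 1) *ᵥ ((M - μ • 1) *ᵥ u s)) = 0)
    (hli : LinearIndependent K (fun s => (M - μ • 1) *ᵥ ((M - μ • 1) *ᵥ u s))) :
    geo M μ 1 + finrank K R + Fintype.card σ ≤ alg M μ ∧
    (gram F z).rank + 2 * finrank K R + Fintype.card σ ≤ alg M μ := by
  classical
  set T : Module.End K (κ → K) := (M - μ • (1 : Matrix κ κ K)).mulVecLin with hT
  have hTv : ∀ v, T v = (M - μ • 1) *ᵥ v := fun v => rfl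
  set W := Module.End.maxGenEigenspace (Matrix.toLin' M) μ with hW
  set S := Submodule.map T W with hS
  have h1 := gap_two M F μ hμ h z hz R S hR hR' (by
    rintro w ⟨w', h1, h2⟩
    exact ⟨w', h2, h1⟩)
  have h1' := gap_dim M μ S (by
    rintro w ⟨w', h1, h2⟩
    exact ⟨w', h2, h1⟩)
  have h2 : finrank K R + Fintype.card σ ≤ finrank K S := by
    have hrn := LinearMap.finrank_range_add_finrank_ker (T.domRestrict S)
    have hRS : R ≤ S := by
      intro w hw
      obtain ⟨w', hw'⟩ := hR' w hw
      refine ⟨w', ?_, hw'⟩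
      apply mem_W
      rw [hw', hR w hw, Matrix.mulVec_zero]
    have e1 : finrank K R ≤ finrank K (LinearMap.ker (T.domRestrict S)) := by
      let g : R →ₗ[K] LinearMap.ker (T.domRestrict S) :=
        (Submodule.inclusion hRS).codRestrict _ (by
          rintro ⟨w, hw⟩
          rw [LinearMap.mem_ker]
          exact hR w hw)
      refine LinearMap.finrank_le_finrank_of_injective (f := g) ?_
      intro a b hab
      have := congrArg (fun t => ((t : S) : κ → K)) (congrArg Subtype.val hab)
      exact Subtype.ext this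
    have e2 : Fintype.card σ ≤ finrank K (LinearMap.range (T.domRestrict S)) := by
      have e3 : finrank K (Submodule.span K (Set.range
          (fun s => (M - μ • 1) *ᵥ ((M - μ • 1) *ᵥ u s)))) = Fintype.card σ :=
        finrank_span_eq_card hli
      rw [← e3]
      refine Submodule.finrank_mono ?_
      rw [Submodule.span_le]
      rintro _ ⟨s, rfl⟩
      exact ⟨⟨T (u s), ⟨u s, mem_W M μ _ (h3 s), rfl⟩⟩, rfl⟩
    omega
  omega

end Pool.Agent.GP77
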