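import Pool.Agent.GP77.Two
import Pool.Agent.GP77.Defs

/-!
The gap inequality for the square, final form.
-/

namespace Pool.Agent.GP77

open Matrix Module Pool.Agent.FS77 Pool.Agent.NL18

universe u
variable {K : Type u} [Field K] {ι : Type} [Fintype ι] [DecidableEq ι]

theorem geo_one (A : Matrix ι ι K) (c : K) : geo A c 1 = finrank K (ke A c) := by
  unfold geo ke Module.End.eigenspace
  rw [Nat.cast_one]

/-- A Jordan chain from a difference of the dimensions. -/
theorem exists_chain (A : Matrix ι ι K) (c : K) (h : geo A c 1 ≠ geo A c 2) :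
    ∃ x y : ι → K, y ≠ 0 ∧ A *ᵥ x = c • x + y ∧ A *ᵥ y = c • y := by
  by_contra hcon
  push Not at hcon
  apply h
  unfold geo
  rw [Module.End.genEigenspace_nat, Module.End.genEigenspace_nat]
  have key : LinearMap.ker ((Matrix.toLin' A - c • 1) ^ 1)
      = LinearMap.ker ((Matrix.toLin' A - c • (1 : Module.End K (ι → K))) ^ 2) := by
    have hT : ∀ v, (Matrix.toLin' A - c • (1 : Module.End K (ι → K))) v = A *ᵥ v - c • v := by
      intro v
      rw [LinearMap.sub_apply, Matrix.toLin'_apply, LinearMap.smul_apply, Module.End.one_apply]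
    ext x
    rw [LinearMap.mem_ker, LinearMap.mem_ker, pow_one, pow_two]
    change (Matrix.toLin' A - c • (1 : Module.End K (ι → K))) x = 0 ↔
      (Matrix.toLin' A - c • (1 : Module.End K (ι → K)))
        ((Matrix.toLin' A - c • (1 : Module.End K (ι → K))) x) = 0
    constructor
    · intro hx
      rw [hx, map_zero]
    · intro hx
      by_contra hne
      rw [hT] at hx hne
      rw [hT, sub_eq_zero] at hx
      exact hcon x (A *ᵥ x - c • x) hne (by abel) hx
  rw [key]

theorem psi_mem_one (A : Matrix ι ι K) {σ : Type u} [Fintype σ] (c c' : σ → K) (Q : K)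
    (hQ : ∀ s, c s * c' s = Q) (y y' : σ → ι → K)
    (hy : ∀ s, A *ᵥ y s = c s • y s) (hy' : ∀ s, A *ᵥ y' s = c' s • y' s)
    (w : (Fin 2 → ι) → K) (hw : w ∈ LinearMap.range (psi A c c' y y')) :
    (kpow A 2 - Q • 1) *ᵥ w = 0 := by
  obtain ⟨p, rfl⟩ := hw
  change (kpow A 2 - Q • 1) *ᵥ (∑ s, (ten (y s) ((p s).1 : ι → K)
    + ten ((p s).2 : ι → K) (y' s))) = 0
  rw [Matrix.mulVec_sum]
  refine Finset.sum_eq_zero fun s _ => ?_
  have h1 := (mem_ke A (c' s) _).mp (p s).1.2
  have h2 := (mem_ke A (c s) _).mp (p s).2.2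
  rw [Matrix.sub_mulVec, Matrix.smul_mulVec, Matrix.one_mulVec, Matrix.mulVec_add, kpow_two_ten,
    kpow_two_ten, h1, h2, hy, hy', ten_smul_left, ten_smul_right, ten_smul_left, ten_smul_right,
    smul_smul, smul_smul, hQ, smul_add, sub_self]

theorem psi_mem_two (A : Matrix ι ι K) {σ : Type u} [Fintype σ] (c c' : σ → K) (Q : K)
    (hQ : ∀ s, c s * c' s = Q) (hc0 : ∀ s, c s ≠ 0) (hc0' : ∀ s, c' s ≠ 0)
    (x y x' y' : σ → ι → K)
    (hx : ∀ s, A *ᵥ x s = c s • x s + y s) (hx' : ∀ s, A *ᵥ x' s = c' s • x' s + y' s)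
    (w : (Fin 2 → ι) → K) (hw : w ∈ LinearMap.range (psi A c c' y y')) :
    ∃ w', (kpow A 2 - Q • 1) *ᵥ w' = w := by
  obtain ⟨p, rfl⟩ := hw
  refine ⟨∑ s, ((c' s)⁻¹ • ten (x s) ((p s).1 : ι → K)
    + (c s)⁻¹ • ten ((p s).2 : ι → K) (x' s)), ?_⟩
  change _ = ∑ s, (ten (y s) ((p s).1 : ι → K) + ten ((p s).2 : ι → K) (y' s))
  rw [Matrix.mulVec_sum]
  refine Finset.sum_congr rfl fun s _ => ?_
  have h1 := (mem_ke A (c' s) _).mp (p s).1.2
  have h2 := (mem_ke A (c s) _).mp (p s).2.2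
  rw [Matrix.mulVec_add, Matrix.mulVec_smul, Matrix.mulVec_smul]
  congr 1
  · rw [Matrix.sub_mulVec, Matrix.smul_mulVec, Matrix.one_mulVec, kpow_two_ten, h1, hx,
      ten_add_left, ten_smul_right, ten_smul_right, ten_smul_left, smul_smul, mul_comm (c' s), hQ,
      add_sub_cancel_left, smul_smul, inv_mul_cancel₀ (hc0' s), one_smul]
  · rw [Matrix.sub_mulVec, Matrix.smul_mulVec, Matrix.one_mulVec, kpow_two_ten, h2, hx',
      ten_add_right, ten_smul_left, ten_smul_left, ten_smul_right, smul_smul, hQ,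
      add_sub_cancel_left, smul_smul, inv_mul_cancel₀ (hc0 s), one_smul]

theorem ten_indep (A : Matrix ι ι K) {σ : Type u} [Fintype σ] (c : σ → K)
    (hc : Function.Injective c) (a : K) (ha : a ≠ 0) (y y' : σ → ι → K)
    (hy : ∀ s, A *ᵥ y s = c s • y s) (hy0 : ∀ s, y s ≠ 0) (hy0' : ∀ s, y' s ≠ 0) :
    LinearIndependent K (fun s => a • ten (y s) (y' s)) := by
  classical
  have h1 : LinearIndependent K y := by
    refine Module.End.eigenvectors_linearIndependent' (Matrix.toLin' A) c hc y ?_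
    intro s
    refine ⟨?_, hy0 s⟩
    rw [Module.End.mem_eigenspace_iff, Matrix.toLin'_apply]
    exact hy s
  rw [Fintype.linearIndependent_iff] at h1 ⊢
  intro g hg s
  obtain ⟨j, hj⟩ := Function.ne_iff.mp (hy0' s)
  have h2 := h1 (fun t => g t * a * y' t j) ?_ s
  · rcases mul_eq_zero.mp h2 with h3 | h3
    · exact (mul_eq_zero.mp h3).resolve_right ha
    · exact absurd h3 hj
  · funext i
    have h3 := congrFun hg (fun t : Fin 2 => if t = 0 then i else j)
    rw [Finset.sum_apply] at h3 ⊢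
    rw [Pi.zero_apply] at h3 ⊢
    rw [← h3]
    refine Finset.sum_congr rfl fun t _ => ?_
    simp [ten]
    ring

theorem mem_bad (A : Matrix ι ι K) (c : K) : c ∈ bad A ↔ geo A c 1 ≠ geo A c 2 := by
  classical
  unfold bad
  rw [Finset.mem_filter, Multiset.mem_toFinset]
  constructor
  · exact fun h => h.2
  · intro h
    refine ⟨?_, h⟩
    obtain ⟨x, y, hy0, hx, hy⟩ := exists_chain A c h
    rw [Polynomial.mem_roots (Matrix.charpoly_monic A).ne_zero, ← Matrix.charpoly_toLin',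
      ← Module.End.hasEigenvalue_iff_isRoot_charpoly]
    refine Module.End.hasEigenvalue_of_hasEigenvector (x := y) ⟨?_, hy0⟩
    rw [Module.End.mem_eigenspace_iff, Matrix.toLin'_apply]
    exact hy

theorem square_gap [CharZero K] (A P : Matrix ι ι K) (Q : K) (hP : P.det ≠ 0) (hQ : Q ≠ 0)
    (h : Aᵀ * P * A = Q • P) (F : Matrix (Fin 2 → ι) (Fin 2 → ι) K)
    (hF : (kpow A 2)ᵀ * F * kpow A 2 = Q ^ 2 • F) {r : ℕ} (z : Fin r → (Fin 2 → ι) → K)
    (hz : ∀ i, kpow A 2 *ᵥ z i = Q • z i) :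
    geo (kpow A 2) Q 1 + ∑ c ∈ bad A, 2 * geo A c 1 ≤ alg (kpow A 2) Q ∧
    (gram F z).rank + ∑ c ∈ bad A, (4 * geo A c 1 - 1) ≤ alg (kpow A 2) Q := by
  classical
  have hA : A.det ≠ 0 := by
    have h1 := congrArg Matrix.det h
    rw [Matrix.det_mul, Matrix.det_mul, Matrix.det_smul] at h1
    intro h0
    rw [h0, mul_zero] at h1
    exact mul_ne_zero (pow_ne_zero _ hQ) hP h1.symm
  have hch : ∀ s : {c // c ∈ bad A}, ∃ x y : ι → K, y ≠ 0 ∧ A *ᵥ x = (s : K) • x + y ∧
      A *ᵥ y = (s : K) • y := fun s => exists_chain A s ((mem_bad A s).mp s.2)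
  have hc0 : ∀ s : {c // c ∈ bad A}, (s : K) ≠ 0 := by
    intro s h0
    obtain ⟨x, y, hy0, hx, hy⟩ := hch s
    rw [h0, zero_smul] at hy
    apply hy0
    exact Matrix.mulVec_injective_iff_isUnit.mpr
      ((Matrix.isUnit_iff_isUnit_det A).mpr (isUnit_iff_ne_zero.mpr hA))
      (by rw [hy, Matrix.mulVec_zero])
  have hsym : ∀ (s : {c // c ∈ bad A}) (a : ℕ), geo A (Q / (s : K)) a = geo A s a := by
    intro s a
    rw [geo_eq, geo_eq]
    exact num_symm A P Q hA hP h s (hc0 s) a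
  have hch' : ∀ s : {c // c ∈ bad A}, ∃ x y : ι → K, y ≠ 0 ∧ A *ᵥ x = (Q / (s : K)) • x + y ∧
      A *ᵥ y = (Q / (s : K)) • y := by
    intro s
    refine exists_chain A _ ?_
    rw [hsym, hsym]
    exact (mem_bad A s).mp s.2
  choose x y hy0 hx hy using hch
  choose x' y' hy0' hx' hy' using hch'
  have hcc : ∀ s : {c // c ∈ bad A}, (s : K) * (Q / (s : K)) = Q := fun s =>
    mul_div_cancel₀ Q (hc0 s)
  have hc0' : ∀ s : {c // c ∈ bad A}, Q / (s : K) ≠ 0 := fun s => div_ne_zero hQ (hc0 s)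
  have hinj : Function.Injective (fun s : {c // c ∈ bad A} => (s : K)) := Subtype.coe_injective
  set R := LinearMap.range (psi A (fun s : {c // c ∈ bad A} => (s : K)) (fun s => Q / (s : K))
    y y') with hR
  have h1 := psi_range A (fun s : {c // c ∈ bad A} => (s : K)) (fun s => Q / (s : K)) y y' hinj hy
    hy0 hy0'
  have h2 := gap_three (kpow A 2) F Q hQ hF z hz R
    (psi_mem_one A (fun s : {c // c ∈ bad A} => (s : K)) (fun s => Q / (s : K)) Q hcc y y' hy hy')
    (psi_mem_two A (fun s : {c // c ∈ bad A} => (s : K)) (fun s => Q / (s : K)) Q hcc hc0 hc0'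
      x y x' y' hx hx')
    (σ := {c // c ∈ bad A}) (fun s => ten (x s) (x' s))
    (by
      intro s
      have := (ten_chain A s (Q / (s : K)) (x s) (y s) (x' s) (y' s) (hx s) (hy s) (hx' s)
        (hy' s)).2
      rw [hcc] at this
      exact this)
    (by
      have e : (fun s : {c // c ∈ bad A} => (kpow A 2 - Q • (1 : Matrix (Fin 2 → ι) (Fin 2 → ι) K))
          *ᵥ ((kpow A 2 - Q • 1) *ᵥ ten (x s) (x' s)))
          = fun s => (2 * Q) • ten (y s) (y' s) := by
        funext s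
        have := (ten_chain A s (Q / (s : K)) (x s) (y s) (x' s) (y' s) (hx s) (hy s) (hx' s)
          (hy' s)).1
        rw [hcc] at this
        exact this
      rw [e]
      exact ten_indep A _ hinj (2 * Q) (mul_ne_zero two_ne_zero hQ) y y' hy hy0 hy0')
  have h3 : ∀ s : {c // c ∈ bad A}, finrank K (ke A (Q / (s : K))) = finrank K (ke A (s : K)) := by
    intro s
    rw [← geo_one, ← geo_one, hsym]
  have h4 : ∀ s : {c // c ∈ bad A}, 1 ≤ finrank K (ke A (s : K)) := by
    intro s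
    rw [Nat.one_le_iff_ne_zero]
    intro h0
    have h5 := (Submodule.finrank_eq_zero.mp h0)
    have h6 : y s ∈ ke A (s : K) := (mem_ke A _ _).mpr (hy s)
    rw [h5, Submodule.mem_bot] at h6
    exact hy0 s h6
  have h5 : ∑ s : {c // c ∈ bad A}, (finrank K (ke A (Q / (s : K))) + finrank K (ke A (s : K)))
      = 2 * ∑ s : {c // c ∈ bad A}, geo A (s : K) 1 := by
    rw [Finset.mul_sum]
    refine Finset.sum_congr rfl fun s _ => ?_
    rw [h3, geo_one]
    ring
  have h6 : ∑ c ∈ bad A, (4 * geo A c 1 - 1)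
      = ∑ s : {c // c ∈ bad A}, (4 * geo A (s : K) 1 - 1) :=
    (Finset.sum_coe_sort (bad A) (fun c => 4 * geo A c 1 - 1)).symm
  have h7 : ∑ s : {c // c ∈ bad A}, (4 * geo A (s : K) 1 - 1) + Fintype.card {c // c ∈ bad A}
      = 4 * ∑ s : {c // c ∈ bad A}, geo A (s : K) 1 := by
    rw [Finset.mul_sum, Fintype.card_eq_sum_ones, ← Finset.sum_add_distrib]
    refine Finset.sum_congr rfl fun s _ => ?_
    have := h4 s
    rw [← geo_one] at this
    omega
  have h8 : ∑ c ∈ bad A, 2 * geo A c 1 = 2 * ∑ s : {c // c ∈ bad A}, geo A (s : K) 1 := by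
    rw [Finset.mul_sum]
    exact (Finset.sum_coe_sort (bad A) (fun c => 2 * geo A c 1)).symm
  rw [h5, ← hR] at h1
  rw [h6, h8]
  obtain ⟨h9, h10⟩ := h2
  omega

end Pool.Agent.GP77
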