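import Pool.Agent.GP77.Square
import Pool.Agent.FS77.Tri

/-!
The gap inequality for a symmetric form.
-/

namespace Pool.Agent.GP77

open Matrix Module Pool.Agent.FS77 Pool.Agent.NL18

universe u
variable {K : Type u} [Field K] {ι : Type} [Fintype ι] [DecidableEq ι]

theorem sym_gap [CharZero K] (A P : Matrix ι ι K) (μ : K) (hP : P.det ≠ 0) (hμ : μ ≠ 0)
    (hs : Pᵀ = P) (h : Aᵀ * P * A = μ ^ 2 • P) (hbad : geo A μ 1 ≠ geo A μ 2) {r : ℕ}
    (z : Fin r → ι → K) (hz : ∀ i, A *ᵥ z i = μ • z i) :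
    geo A μ 1 + 2 ≤ alg A μ ∧ (gram P z).rank + 3 ≤ alg A μ := by
  classical
  obtain ⟨x, y, hy0, hx, hy⟩ := exists_chain A μ hbad
  set T : Module.End K (ι → K) := Matrix.toLin' A - μ • (1 : Module.End K (ι → K)) with hT
  have hTv : ∀ v, T v = A *ᵥ v - μ • v := by
    intro v
    rw [hT, LinearMap.sub_apply, Matrix.toLin'_apply, LinearMap.smul_apply, Module.End.one_apply]
  have hTm : ∀ v, (A - μ • (1 : Matrix ι ι K)) *ᵥ v = T v := by
    intro v
    rw [hTv, Matrix.sub_mulVec, Matrix.smul_mulVec, Matrix.one_mulVec]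
  have hTx : T x = y := by rw [hTv, hx]; abel
  have hTy : T y = 0 := by rw [hTv, hy, sub_self]
  set W := Module.End.maxGenEigenspace (Matrix.toLin' A) μ with hW
  have hxW : x ∈ W := by
    rw [hW, Module.End.mem_maxGenEigenspace]
    refine ⟨2, ?_⟩
    rw [← hT, pow_two]
    change T (T x) = 0
    rw [hTx, hTy]
  set S := Submodule.map T W with hS
  have hyS : y ∈ S := ⟨x, hxW, hTx⟩
  have hfin : finrank K (Submodule.span K {y}) = 1 := finrank_span_singleton hy0
  have h1 := gap_two A P μ hμ h z hz (Submodule.span K {y}) S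
    (by
      intro w hw
      obtain ⟨a, rfl⟩ := Submodule.mem_span_singleton.mp hw
      rw [hTm, map_smul, hTy, smul_zero])
    (by
      intro w hw
      obtain ⟨a, rfl⟩ := Submodule.mem_span_singleton.mp hw
      exact ⟨a • x, by rw [hTm, map_smul, hTx]⟩)
    (by
      rintro w ⟨w', h1, h2⟩
      exact ⟨w', by rw [hTm]; exact h2, h1⟩)
  have h1' := gap_dim A μ S (by
    rintro w ⟨w', h1, h2⟩
    exact ⟨w', by rw [hTm]; exact h2, h1⟩)
  have h2 : 2 ≤ finrank K S := by
    by_contra hcon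
    have hle : Submodule.span K {y} ≤ S := by
      rw [Submodule.span_le, Set.singleton_subset_iff]
      exact hyS
    have heq : Submodule.span K {y} = S := by
      refine Submodule.eq_of_le_of_finrank_le hle ?_
      rw [hfin]
      omega
    have hf : ∀ w ∈ W, ∃ a : K, T w = a • y := by
      intro w hw
      have : T w ∈ S := ⟨w, hw, rfl⟩
      rw [← heq] at this
      obtain ⟨a, ha⟩ := Submodule.mem_span_singleton.mp this
      exact ⟨a, ha.symm⟩
    have hsym : ∀ a b : ι → K, a ⬝ᵥ (P *ᵥ b) = b ⬝ᵥ (P *ᵥ a) := by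
      intro a b
      rw [Matrix.dotProduct_mulVec, ← Matrix.mulVec_transpose, hs, dotProduct_comm]
    have hrad : ∀ w, T w ⬝ᵥ (P *ᵥ y) = 0 := by
      intro w
      rw [hTv]
      exact radical A P μ hμ h hy
    have hyy : y ⬝ᵥ (P *ᵥ y) = 0 := by
      have := hrad x
      rwa [hTx] at this
    have hform : ∀ w, (A *ᵥ w) ⬝ᵥ (P *ᵥ (A *ᵥ w)) = μ ^ 2 * (w ⬝ᵥ (P *ᵥ w)) := by
      intro w
      have e2 : w ⬝ᵥ ((Aᵀ * P * A) *ᵥ w) = (A *ᵥ w) ⬝ᵥ (P *ᵥ (A *ᵥ w)) := by
        rw [← Matrix.mulVec_mulVec, ← Matrix.mulVec_mulVec, Matrix.dotProduct_mulVec,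
          Matrix.vecMul_transpose]
      rw [← e2, h, Matrix.smul_mulVec, dotProduct_smul, smul_eq_mul]
    have hquad : ∀ w ∈ W, ∀ a : K, T w = a • y → a * (w ⬝ᵥ (P *ᵥ y)) = 0 := by
      intro w _ a ha
      have e1 : A *ᵥ w = μ • w + a • y := by
        rw [← ha, hTv]; abel
      have e2 := hform w
      rw [e1] at e2
      simp only [Matrix.mulVec_add, Matrix.mulVec_smul, add_dotProduct, dotProduct_add,
        smul_dotProduct, dotProduct_smul, smul_eq_mul] at e2
      rw [hyy, hsym y w] at e2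
      have e3 : (2 * μ) * (a * (w ⬝ᵥ (P *ᵥ y))) = 0 := by
        linear_combination e2
      exact (mul_eq_zero.mp e3).resolve_left (mul_ne_zero two_ne_zero hμ)
    have hxy : x ⬝ᵥ (P *ᵥ y) = 0 := by
      have := hquad x hxW 1 (by rw [hTx, one_smul])
      rwa [one_mul] at this
    have hwy : ∀ w ∈ W, w ⬝ᵥ (P *ᵥ y) = 0 := by
      intro w hw
      obtain ⟨a, ha⟩ := hf w hw
      by_cases h0 : a = 0
      · have e1 := hquad (w + x) (W.add_mem hw hxW) 1 (by
          rw [map_add, ha, h0, hTx, zero_smul, zero_add, one_smul])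
        rw [one_mul, add_dotProduct, hxy, add_zero] at e1
        exact e1
      · exact (mul_eq_zero.mp (hquad w hw a ha)).resolve_left h0
    have hall : ∀ v, v ⬝ᵥ (P *ᵥ y) = 0 := by
      intro v
      obtain ⟨N, hN⟩ := (LinearMap.eventually_isCompl_ker_pow_range_pow T).exists_forall_of_atTop
      have hc := hN (N + 1) (Nat.le_succ N)
      have hv : v ∈ LinearMap.ker (T ^ (N + 1)) ⊔ LinearMap.range (T ^ (N + 1)) := by
        rw [hc.sup_eq_top]
        exact Submodule.mem_top
      obtain ⟨a, ha, b, hb, rfl⟩ := Submodule.mem_sup.mp hv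
      have haW : a ∈ W := by
        rw [hW, Module.End.mem_maxGenEigenspace]
        exact ⟨N + 1, ha⟩
      obtain ⟨b', rfl⟩ := hb
      rw [pow_succ', Module.End.mul_apply, add_dotProduct, hwy a haW, hrad, add_zero]
    have hPy : P *ᵥ y = 0 := by
      funext i
      have := hall (Pi.single i 1)
      rwa [single_dotProduct, one_mul] at this
    apply hy0
    exact Matrix.mulVec_injective_iff_isUnit.mpr
      ((Matrix.isUnit_iff_isUnit_det P).mpr (isUnit_iff_ne_zero.mpr hP))
      (by rw [hPy, Matrix.mulVec_zero])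
  rw [hfin] at h1
  omega

/-- A matrix that is not semisimple has a bad eigenvalue. -/
theorem bad_nonempty [IsAlgClosed K] (A : Matrix ι ι K)
    (hs : ¬ Module.End.IsSemisimple (Matrix.toLin' A)) : (bad A).Nonempty := by
  obtain ⟨c, x, h1, h2⟩ := exists_jordan (Matrix.toLin' A) hs
  refine ⟨c, ?_⟩
  rw [mem_bad]
  intro h
  unfold geo at h
  rw [Module.End.genEigenspace_nat, Module.End.genEigenspace_nat] at h
  set T := Matrix.toLin' A - c • (1 : Module.End K (ι → K)) with hT
  have hTv : ∀ v, T v = Matrix.toLin' A v - c • v := by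
    intro v
    rw [hT, LinearMap.sub_apply, LinearMap.smul_apply, Module.End.one_apply]
  have hle : LinearMap.ker (T ^ 1) ≤ LinearMap.ker (T ^ 2) := by
    intro v hv
    rw [LinearMap.mem_ker, pow_one] at hv
    rw [LinearMap.mem_ker, pow_two]
    change T (T v) = 0
    rw [hv, map_zero]
  have heq := Submodule.eq_of_le_of_finrank_eq hle h
  have hx2 : x ∈ LinearMap.ker (T ^ 2) := by
    rw [LinearMap.mem_ker, pow_two]
    change T (T x) = 0
    rw [hTv x, hTv, h2, sub_self]
  rw [← heq, LinearMap.mem_ker, pow_one, hTv] at hx2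
  exact h1 hx2

end Pool.Agent.GP77
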