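import Pool.Agent.GP77.Gen

/-!
Tensors of two Jordan chains; chains at the dual eigenvalue.
-/

namespace Pool.Agent.GP77

open Matrix Module Pool.Agent.FS77 Pool.Agent.NL18

variable {K : Type*} [Field K] {ι : Type*} [Fintype ι] [DecidableEq ι]

/-- The tensor `x ⊗ y`. -/
def ten (x y : ι → K) : (Fin 2 → ι) → K := fun f => x (f 0) * y (f 1)

omit [Fintype ι] [DecidableEq ι] in
theorem ten_add_left (x x' y : ι → K) : ten (x + x') y = ten x y + ten x' y := by
  funext f; simp [ten, add_mul]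

omit [Fintype ι] [DecidableEq ι] in
theorem ten_add_right (x y y' : ι → K) : ten x (y + y') = ten x y + ten x y' := by
  funext f; simp [ten, mul_add]

omit [Fintype ι] [DecidableEq ι] in
theorem ten_smul_left (c : K) (x y : ι → K) : ten (c • x) y = c • ten x y := by
  funext f; simp [ten, mul_assoc]

omit [Fintype ι] [DecidableEq ι] in
theorem ten_smul_right (c : K) (x y : ι → K) : ten x (c • y) = c • ten x y := by
  funext f; simp [ten]; ring

theorem kpow_two_ten (A : Matrix ι ι K) (x y : ι → K) :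
    kpow A 2 *ᵥ ten x y = ten (A *ᵥ x) (A *ᵥ y) := by
  funext g
  have h1 : (kpow A 2 *ᵥ ten x y) g = ∑ f : Fin 2 → ι, (A (g 0) (f 0) * A (g 1) (f 1)) *
      (x (f 0) * y (f 1)) := by
    unfold Matrix.mulVec dotProduct
    refine Finset.sum_congr rfl fun f _ => ?_
    have h3 : kpow A 2 g f = A (g 0) (f 0) * A (g 1) (f 1) := by
      unfold kpow
      rw [Matrix.of_apply, Fin.prod_univ_two]
    change kpow A 2 g f * ten x y f = _
    rw [h3]
    rfl
  have h2 : ten (A *ᵥ x) (A *ᵥ y) g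
      = ∑ p : ι × ι, (A (g 0) p.1 * x p.1) * (A (g 1) p.2 * y p.2) := by
    unfold ten Matrix.mulVec dotProduct
    rw [Finset.sum_mul_sum, Fintype.sum_prod_type]
  rw [h1, h2]
  refine Fintype.sum_equiv (finTwoArrowEquiv ι) _ _ ?_
  intro f
  change A (g 0) (f 0) * A (g 1) (f 1) * (x (f 0) * y (f 1))
    = A (g 0) (f 0) * x (f 0) * (A (g 1) (f 1) * y (f 1))
  ring

/-- The nilpotent part on the tensor of two chains. -/
theorem ten_chain (A : Matrix ι ι K) (c c' : K) (x y x' y' : ι → K)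
    (hx : A *ᵥ x = c • x + y) (hy : A *ᵥ y = c • y) (hx' : A *ᵥ x' = c' • x' + y')
    (hy' : A *ᵥ y' = c' • y') :
    let T : Matrix (Fin 2 → ι) (Fin 2 → ι) K := kpow A 2 - (c * c') • 1
    T *ᵥ (T *ᵥ ten x x') = (2 * (c * c')) • ten y y' ∧ T *ᵥ (T *ᵥ (T *ᵥ ten x x')) = 0 := by
  intro T
  have hT : ∀ v, T *ᵥ v = kpow A 2 *ᵥ v - (c * c') • v := by
    intro v
    rw [Matrix.sub_mulVec, Matrix.smul_mulVec, Matrix.one_mulVec]
  have h0 : T *ᵥ ten y y' = 0 := by
    rw [hT, kpow_two_ten, hy, hy', ten_smul_left, ten_smul_right, smul_smul, sub_self]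
  have h1 : T *ᵥ ten x y' = c' • ten y y' := by
    rw [hT, kpow_two_ten, hx, hy', ten_add_left, ten_smul_right, ten_smul_right, ten_smul_left,
      smul_smul, mul_comm c' c]
    abel
  have h2 : T *ᵥ ten y x' = c • ten y y' := by
    rw [hT, kpow_two_ten, hy, hx', ten_smul_left, ten_add_right, ten_smul_right, smul_add,
      smul_smul]
    abel
  have h3 : T *ᵥ ten x x' = c • ten x y' + c' • ten y x' + ten y y' := by
    rw [hT, kpow_two_ten, hx, hx', ten_add_left, ten_add_right, ten_add_right, ten_smul_left,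
      ten_smul_left, ten_smul_right, ten_smul_right, smul_smul]
    abel
  have h4 : T *ᵥ (T *ᵥ ten x x') = (2 * (c * c')) • ten y y' := by
    rw [h3, Matrix.mulVec_add, Matrix.mulVec_add, Matrix.mulVec_smul, Matrix.mulVec_smul, h0, h1,
      h2, smul_smul, smul_smul, add_zero, ← add_smul, mul_comm c' c, ← two_mul]
  refine ⟨h4, ?_⟩
  rw [h4, Matrix.mulVec_smul, h0, smul_zero]

omit [DecidableEq ι] in
/-- A chain for the transposed matrix. -/
theorem chain_transpose (M : Matrix ι ι K) (h : ∃ x, M *ᵥ (M *ᵥ x) = 0 ∧ M *ᵥ x ≠ 0) :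
    ∃ u, Mᵀ *ᵥ (Mᵀ *ᵥ u) = 0 ∧ Mᵀ *ᵥ u ≠ 0 := by
  by_contra hcon
  push Not at hcon
  obtain ⟨x, hx, hx'⟩ := h
  have h1 : LinearMap.ker (Mᵀ * Mᵀ).mulVecLin = LinearMap.ker Mᵀ.mulVecLin := by
    ext u
    simp only [LinearMap.mem_ker, Matrix.mulVecLin_apply]
    constructor
    · intro hu
      rw [← Matrix.mulVec_mulVec] at hu
      exact hcon u hu
    · intro hu
      rw [← Matrix.mulVec_mulVec, hu, Matrix.mulVec_zero]
  have h2 : (Mᵀ * Mᵀ).rank = Mᵀ.rank := by
    have e1 := LinearMap.finrank_range_add_finrank_ker (Mᵀ * Mᵀ).mulVecLin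
    have e2 := LinearMap.finrank_range_add_finrank_ker Mᵀ.mulVecLin
    rw [h1] at e1
    unfold Matrix.rank
    omega
  have h3 : (M * M).rank = M.rank := by
    rw [← Matrix.rank_transpose (M * M), Matrix.transpose_mul, h2, Matrix.rank_transpose]
  have h4 : LinearMap.ker M.mulVecLin ≤ LinearMap.ker (M * M).mulVecLin := by
    intro u hu
    rw [LinearMap.mem_ker, Matrix.mulVecLin_apply] at hu ⊢
    rw [← Matrix.mulVec_mulVec, hu, Matrix.mulVec_zero]
  have h5 : LinearMap.ker M.mulVecLin = LinearMap.ker (M * M).mulVecLin := by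
    refine Submodule.eq_of_le_of_finrank_eq h4 ?_
    have e1 := LinearMap.finrank_range_add_finrank_ker (M * M).mulVecLin
    have e2 := LinearMap.finrank_range_add_finrank_ker M.mulVecLin
    unfold Matrix.rank at h3
    omega
  have h6 : x ∈ LinearMap.ker (M * M).mulVecLin := by
    rw [LinearMap.mem_ker, Matrix.mulVecLin_apply, ← Matrix.mulVec_mulVec]
    exact hx
  rw [← h5, LinearMap.mem_ker, Matrix.mulVecLin_apply] at h6
  exact hx' h6

/-- A chain at `c` gives a chain at `Q / c`. -/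
theorem chain_dual (A P : Matrix ι ι K) (Q : K) (hP : P.det ≠ 0) (hQ : Q ≠ 0)
    (h : Aᵀ * P * A = Q • P) (c : K) (hc : c ≠ 0)
    (hch : ∃ x, (A - c • 1) *ᵥ ((A - c • 1) *ᵥ x) = 0 ∧ (A - c • 1) *ᵥ x ≠ 0) :
    ∃ x' y', y' ≠ 0 ∧ A *ᵥ x' = (Q / c) • x' + y' ∧ A *ᵥ y' = (Q / c) • y' := by
  obtain ⟨u, hu, hu'⟩ := chain_transpose _ hch
  have hPu : IsUnit P.det := isUnit_iff_ne_zero.mpr hP
  have htr : (A - c • (1 : Matrix ι ι K))ᵀ = Aᵀ - c • 1 := by
    rw [Matrix.transpose_sub, Matrix.transpose_smul, Matrix.transpose_one]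
  rw [htr] at hu hu'
  set w := (Aᵀ - c • (1 : Matrix ι ι K)) *ᵥ u with hw
  have e1 : Aᵀ *ᵥ w = c • w := by
    rw [Matrix.sub_mulVec, Matrix.smul_mulVec, Matrix.one_mulVec, sub_eq_zero] at hu
    exact hu
  have e2 : Aᵀ *ᵥ u = c • u + w := by
    rw [hw, Matrix.sub_mulVec, Matrix.smul_mulVec, Matrix.one_mulVec]
    abel
  have hPP : ∀ v : ι → K, P *ᵥ (P⁻¹ *ᵥ v) = v := by
    intro v
    rw [Matrix.mulVec_mulVec, Matrix.mul_nonsing_inv P hPu, Matrix.one_mulVec]
  have hinj : ∀ a b : ι → K, Aᵀ *ᵥ (P *ᵥ a) = Aᵀ *ᵥ (P *ᵥ b) → a = b := by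
    have hA : A.det ≠ 0 := by
      have h1 := congrArg Matrix.det h
      rw [Matrix.det_mul, Matrix.det_mul, Matrix.det_smul] at h1
      intro h0
      rw [h0, mul_zero] at h1
      exact mul_ne_zero (pow_ne_zero _ hQ) hP h1.symm
    intro a b hab
    have hAt : IsUnit Aᵀ.det := by
      rw [Matrix.det_transpose]
      exact isUnit_iff_ne_zero.mpr hA
    have i1 : P *ᵥ a = P *ᵥ b :=
      Matrix.mulVec_injective_iff_isUnit.mpr ((Matrix.isUnit_iff_isUnit_det _).mpr hAt) hab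
    exact Matrix.mulVec_injective_iff_isUnit.mpr ((Matrix.isUnit_iff_isUnit_det _).mpr hPu) i1
  have hform : ∀ v : ι → K, Aᵀ *ᵥ (P *ᵥ (A *ᵥ v)) = Q • (P *ᵥ v) := by
    intro v
    rw [Matrix.mulVec_mulVec, Matrix.mulVec_mulVec, h, Matrix.smul_mulVec]
  set v := P⁻¹ *ᵥ w with hv
  set s := P⁻¹ *ᵥ u with hs
  have hPv : P *ᵥ v = w := hPP w
  have hPs : P *ᵥ s = u := hPP u
  have hAv : A *ᵥ v = (Q / c) • v := by
    apply hinj
    rw [hform, hPv, Matrix.mulVec_smul, hPv, Matrix.mulVec_smul, e1, smul_smul,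
      div_mul_cancel₀ _ hc]
  have hAs : A *ᵥ s = (Q / c) • s + (-(Q / c ^ 2)) • v := by
    apply hinj
    rw [hform, hPs, Matrix.mulVec_add, Matrix.mulVec_smul, Matrix.mulVec_smul, hPs, hPv,
      Matrix.mulVec_add, Matrix.mulVec_smul, Matrix.mulVec_smul, e1, e2, smul_add, smul_smul,
      smul_smul, div_mul_cancel₀ _ hc, add_assoc, ← add_smul]
    have : Q / c + -(Q / c ^ 2) * c = 0 := by
      field_simp
      ring
    rw [this, zero_smul, add_zero]
  refine ⟨s, (-(Q / c ^ 2)) • v, ?_, hAs, ?_⟩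
  · intro h0
    rcases smul_eq_zero.mp h0 with h1 | h1
    · exact (neg_ne_zero.mpr (div_ne_zero hQ (pow_ne_zero 2 hc))) h1
    · apply hu'
      rw [← hPv, h1, Matrix.mulVec_zero]
  · rw [Matrix.mulVec_smul, hAv, smul_comm]

end Pool.Agent.GP77
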