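import Pool.Agent.GP77.Gen2
import Pool.Agent.FS77.Blocks
import Pool.Agent.FS77.Count

/-!
The gap inequality for the square.
-/

namespace Pool.Agent.GP77

open Matrix Module Pool.Agent.FS77 Pool.Agent.NL18

universe u
variable {K : Type u} [Field K] {ι : Type} [Fintype ι] [DecidableEq ι]

/-- The kernel of `A - c`. -/
noncomputable def ke (A : Matrix ι ι K) (c : K) : Submodule K (ι → K) :=
  Module.End.eigenspace (Matrix.toLin' A) c

theorem mem_ke (A : Matrix ι ι K) (c : K) (v : ι → K) : v ∈ ke A c ↔ A *ᵥ v = c • v := by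
  unfold ke
  rw [Module.End.mem_eigenspace_iff, Matrix.toLin'_apply]

section psi

variable (A : Matrix ι ι K) {σ : Type u} [Fintype σ] (c c' : σ → K) (y y' : σ → ι → K)

/-- The map `(v', v)_s ↦ Σ_s (y_s ⊗ v'_s + v_s ⊗ y'_s)`. -/
noncomputable def psi : ((s : σ) → (ke A (c' s) × ke A (c s))) →ₗ[K] ((Fin 2 → ι) → K) where
  toFun p := ∑ s, (ten (y s) ((p s).1 : ι → K) + ten ((p s).2 : ι → K) (y' s))
  map_add' p q := by
    rw [← Finset.sum_add_distrib]
    refine Finset.sum_congr rfl fun s _ => ?_
    simp only [Pi.add_apply, Prod.fst_add, Prod.snd_add, Submodule.coe_add, ten_add_left,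
      ten_add_right]
    abel
  map_smul' a p := by
    rw [RingHom.id_apply, Finset.smul_sum]
    refine Finset.sum_congr rfl fun s _ => ?_
    simp only [Pi.smul_apply, Prod.smul_fst, Prod.smul_snd, Submodule.coe_smul, ten_smul_left,
      ten_smul_right, smul_add]

theorem psi_ker (hc : Function.Injective c) (hy : ∀ s, A *ᵥ y s = c s • y s)
    (p : (s : σ) → (ke A (c' s) × ke A (c s))) (hp : psi A c c' y y' p = 0) (s : σ) (j : ι) :
    ∀ i, y s i * ((p s).1 : ι → K) j + ((p s).2 : ι → K) i * y' s j = 0 := by
  classical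
  have hind := (Module.End.eigenspaces_iSupIndep (Matrix.toLin' A)).comp hc
  rw [iSupIndep_iff_finsetSum_eq_zero_imp_eq_zero] at hind
  have h := hind Finset.univ
    (fun s => (((p s).1 : ι → K) j) • y s + (y' s j) • ((p s).2 : ι → K)) ?_ ?_ s
    (Finset.mem_univ s)
  · intro i
    have h1 := congrFun h i
    simp only [Pi.add_apply, Pi.smul_apply, smul_eq_mul, Pi.zero_apply] at h1
    rw [mul_comm (y s i), mul_comm (((p s).2 : ι → K) i)]
    exact h1
  · intro s _
    refine Submodule.add_mem _ (Submodule.smul_mem _ _ ?_) (Submodule.smul_mem _ _ (p s).2.2)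
    exact (mem_ke A (c s) (y s)).mpr (hy s)
  · funext i
    have h1 := congrFun hp (fun t : Fin 2 => if t = 0 then i else j)
    have h2 : (psi A c c' y y' p) (fun t : Fin 2 => if t = 0 then i else j)
        = ∑ s, (y s i * ((p s).1 : ι → K) j + ((p s).2 : ι → K) i * y' s j) := by
      change (∑ s, (ten (y s) ((p s).1 : ι → K) + ten ((p s).2 : ι → K) (y' s)))
        (fun t : Fin 2 => if t = 0 then i else j) = _
      rw [Finset.sum_apply]
      refine Finset.sum_congr rfl fun s _ => ?_
      simp [ten]
    rw [h2] at h1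
    rw [Finset.sum_apply]
    simp only [Pi.add_apply, Pi.smul_apply, smul_eq_mul, Pi.zero_apply] at h1 ⊢
    rw [← h1]
    refine Finset.sum_congr rfl fun s _ => ?_
    ring

theorem psi_range (hc : Function.Injective c) (hy : ∀ s, A *ᵥ y s = c s • y s)
    (hy0 : ∀ s, y s ≠ 0) (hy0' : ∀ s, y' s ≠ 0) :
    ∑ s, (finrank K (ke A (c' s)) + finrank K (ke A (c s)))
      ≤ finrank K (LinearMap.range (psi A c c' y y')) + Fintype.card σ := by
  classical
  have h1 := LinearMap.finrank_range_add_finrank_ker (psi A c c' y y')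
  have h2 : finrank K ((s : σ) → (ke A (c' s) × ke A (c s)))
      = ∑ s, (finrank K (ke A (c' s)) + finrank K (ke A (c s))) := by
    rw [Module.finrank_pi_fintype]
    refine Finset.sum_congr rfl fun s _ => ?_
    rw [Module.finrank_prod]
  have h3 : finrank K (LinearMap.ker (psi A c c' y y')) ≤ Fintype.card σ := by
    have hi : ∀ s, ∃ i, y s i ≠ 0 := fun s => Function.ne_iff.mp (hy0 s)
    have hj : ∀ s, ∃ j, y' s j ≠ 0 := fun s => Function.ne_iff.mp (hy0' s)
    choose i hi using hi
    choose j hj using hj
    let g : LinearMap.ker (psi A c c' y y') →ₗ[K] (σ → K) :=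
      { toFun := fun p s => ((p.1 s).2 : ι → K) (i s)
        map_add' := by intro p q; rfl
        map_smul' := by intro a p; rfl }
    have hg0 : ∀ p : LinearMap.ker (psi A c c' y y'), g p = 0 → p = 0 := by
      rintro ⟨p, hp⟩ h0
      rw [LinearMap.mem_ker] at hp
      apply Subtype.ext
      funext s
      have h4 := psi_ker A c c' y y' hc hy p hp s
      have h5 : ((p s).2 : ι → K) (i s) = 0 := congrFun h0 s
      have h6 : ((p s).1 : ι → K) = 0 := by
        funext t
        have := h4 t (i s)
        rw [h5, zero_mul, add_zero] at this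
        exact (mul_eq_zero.mp this).resolve_left (hi s)
      have h7 : ((p s).2 : ι → K) = 0 := by
        funext t
        have := h4 (j s) t
        rw [h6, Pi.zero_apply, mul_zero, zero_add] at this
        exact (mul_eq_zero.mp this).resolve_right (hj s)
      exact Prod.ext (Subtype.ext h6) (Subtype.ext h7)
    have hg : Function.Injective g := by
      intro p q hpq
      have h6 := hg0 (p - q) (by
        funext s
        have h7 : ((p.1 s).2 : ι → K) (i s) = ((q.1 s).2 : ι → K) (i s) := congrFun hpq s
        change ((p.1 s).2 : ι → K) (i s) - ((q.1 s).2 : ι → K) (i s) = 0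
        rw [h7, sub_self])
      exact sub_eq_zero.mp h6
    have h5 := LinearMap.finrank_le_finrank_of_injective hg
    rwa [Module.finrank_fintype_fun_eq_card] at h5
  omega

end psi

end Pool.Agent.GP77
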